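import Mathlib

/-! Integer vectors in a box with a given value of the form at a coprime pair. -/

set_option autoImplicit false

namespace Pool.Agent.Q15.AP

lemma zero_of (d : ℕ) : ∀ (m : ℕ → ℤ) (r s : ℤ), IsCoprime r s → r ≠ 0 →
    ∑ i ∈ Finset.range (d + 1), m i * r ^ i * s ^ (d - i) = 0 → (∀ i < d, |m i| < |r|) →
    ∀ i ≤ d, m i = 0 := by
  induction d with
  | zero =>
    intro m r s _ _ h _ i hi
    have : i = 0 := by omega
    subst this
    simpa using h
  | succ d ih =>
    intro m r s hco hr h hm i hi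
    rw [Finset.sum_range_succ'] at h
    have h1 : ∑ k ∈ Finset.range (d + 1), m (k + 1) * r ^ (k + 1) * s ^ (d + 1 - (k + 1)) =
        r * ∑ k ∈ Finset.range (d + 1), m (k + 1) * r ^ k * s ^ (d - k) := by
      rw [Finset.mul_sum]
      apply Finset.sum_congr rfl
      intro k _
      rw [Nat.add_sub_add_right, pow_succ]
      ring
    rw [h1, pow_zero, mul_one, Nat.sub_zero] at h
    have h2 : r ∣ m 0 * s ^ (d + 1) := by
      refine ⟨-∑ k ∈ Finset.range (d + 1), m (k + 1) * r ^ k * s ^ (d - k), ?_⟩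
      linear_combination h
    have h3 : r ∣ m 0 := (hco.pow_right (n := d + 1)).dvd_of_dvd_mul_right h2
    have h4 : m 0 = 0 := by
      by_contra hne
      have h5 := Int.le_of_dvd (abs_pos.2 hne) ((abs_dvd_abs _ _).2 h3)
      have h6 := hm 0 (by omega)
      omega
    rw [h4, zero_mul, add_zero] at h
    have h5 := (mul_eq_zero.1 h).resolve_left hr
    have h6 := ih (fun k => m (k + 1)) r s hco hr h5 (fun k hk => hm (k + 1) (by omega))
    cases i with
    | zero => exact h4
    | succ i => exact h6 i (by omega)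

lemma zero_of' (d : ℕ) (m : ℕ → ℤ) (r s : ℤ) (hco : IsCoprime r s) (hs : s ≠ 0)
    (h : ∑ i ∈ Finset.range (d + 1), m i * r ^ i * s ^ (d - i) = 0)
    (hm : ∀ i, 1 ≤ i → i ≤ d → |m i| < |s|) : ∀ i ≤ d, m i = 0 := by
  intro i hi
  have h1 : ∑ i ∈ Finset.range (d + 1), m (d - i) * s ^ i * r ^ (d - i) = 0 := by
    rw [← h, ← Finset.sum_range_reflect]
    apply Finset.sum_congr rfl
    intro k hk
    rw [Finset.mem_range] at hk
    have e1 : d + 1 - 1 - k = d - k := by omega
    have e2 : d - (d - k) = k := by omega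
    rw [e1, e2]
    ring
  have h2 := zero_of d (fun i => m (d - i)) s r hco.symm hs h1 (fun i hi => hm _ (by omega)
    (by omega)) (d - i) (by omega)
  have h3 : m (d - (d - i)) = 0 := h2
  rwa [show d - (d - i) = i by omega] at h3

/-- the vectors in the box -/
noncomputable def box (d X : ℕ) : Finset (Fin (d + 1) → ℤ) :=
  Fintype.piFinset fun _ => Finset.Icc (-(X : ℤ)) X

/-- the value of the form -/
def val (d : ℕ) (n : Fin (d + 1) → ℤ) (r s : ℤ) : ℤ :=
  ∑ i : Fin (d + 1), n i * r ^ (i : ℕ) * s ^ (d - i)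

/-- vectors with a given value -/
noncomputable def Sol (d X : ℕ) (r s m : ℤ) : Finset (Fin (d + 1) → ℤ) :=
  (box d X).filter fun n => val d n r s = m

/-- extension of a vector by zero -/
def ex (d : ℕ) (n : Fin (d + 1) → ℤ) (i : ℕ) : ℤ := if h : i < d + 1 then n ⟨i, h⟩ else 0

lemma val_eq (d : ℕ) (n : Fin (d + 1) → ℤ) (r s : ℤ) :
    val d n r s = ∑ i ∈ Finset.range (d + 1), ex d n i * r ^ i * s ^ (d - i) := by
  unfold val
  rw [← Fin.sum_univ_eq_sum_range (fun i => ex d n i * r ^ i * s ^ (d - i))]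
  apply Finset.sum_congr rfl
  intro i _
  unfold ex
  rw [dif_pos i.2]

lemma quot_close {X H : ℕ} (hH : 1 ≤ H) {a b : ℤ} (ha : a ∈ Finset.Icc (-(X : ℤ)) X)
    (hb : b ∈ Finset.Icc (-(X : ℤ)) X) (h : (a + X).toNat / H = (b + X).toNat / H) :
    |a - b| < H := by
  rw [Finset.mem_Icc] at ha hb
  have h1 := Nat.div_add_mod (a + X).toNat H
  have h2 := Nat.div_add_mod (b + X).toNat H
  have h3 := Nat.mod_lt (a + X).toNat (show 0 < H by omega)
  have h4 := Nat.mod_lt (b + X).toNat (show 0 < H by omega)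
  rw [h] at h1
  rw [abs_lt]
  constructor <;> omega

lemma quot_lt {X H : ℕ} (hH : 1 ≤ H) {a : ℤ} (ha : a ∈ Finset.Icc (-(X : ℤ)) X) :
    (a + X).toNat / H < 2 * X / H + 1 := by
  rw [Finset.mem_Icc] at ha
  rw [Nat.lt_succ_iff]
  apply Nat.div_le_div_right
  omega

/-- the number of vectors in a box with a given value -/
theorem sol_card {d X : ℕ} {r s m : ℤ} (hco : IsCoprime r s) {H : ℕ}
    (hH : H = max r.natAbs s.natAbs) (hH1 : 1 ≤ H) : (Sol d X r s m).card ≤ (2 * X / H + 1) ^ d := by
  classical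
  have hmem : ∀ n ∈ Sol d X r s m, (∀ i, n i ∈ Finset.Icc (-(X : ℤ)) X) ∧ val d n r s = m := by
    intro n hn
    obtain ⟨h1, h2⟩ := Finset.mem_filter.1 hn
    exact ⟨fun i => Fintype.mem_piFinset.1 h1 i, h2⟩
  have hcardT : (Fintype.piFinset fun _ : Fin d => Finset.range (2 * X / H + 1)).card =
      (2 * X / H + 1) ^ d := by
    rw [Fintype.card_piFinset]
    simp
  have hdiff : ∀ n ∈ Sol d X r s m, ∀ n' ∈ Sol d X r s m,
      ∑ i ∈ Finset.range (d + 1), (ex d n i - ex d n' i) * r ^ i * s ^ (d - i) = 0 := by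
    intro n hn n' hn'
    have h1 := (hmem n hn).2
    have h2 := (hmem n' hn').2
    rw [val_eq] at h1 h2
    calc ∑ i ∈ Finset.range (d + 1), (ex d n i - ex d n' i) * r ^ i * s ^ (d - i) =
        ∑ i ∈ Finset.range (d + 1), (ex d n i * r ^ i * s ^ (d - i) -
          ex d n' i * r ^ i * s ^ (d - i)) := by
          apply Finset.sum_congr rfl
          intro i _
          ring
      _ = 0 := by rw [Finset.sum_sub_distrib, h1, h2, sub_self]
  have hfin : ∀ n n' : Fin (d + 1) → ℤ, (∀ i ≤ d, ex d n i - ex d n' i = 0) → n = n' := by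
    intro n n' h
    funext i
    have h1 := h i (by omega)
    unfold ex at h1
    rw [dif_pos i.2, dif_pos i.2] at h1
    have h2 : n i - n' i = 0 := h1
    omega
  rw [← hcardT]
  rcases le_total s.natAbs r.natAbs with hrs | hrs
  · have hHr : H = r.natAbs := by rw [hH, max_eq_left hrs]
    have hr0 : r ≠ 0 := by
      rintro rfl
      simp at hHr
      omega
    apply Finset.card_le_card_of_injOn (fun n : Fin (d + 1) → ℤ => fun j : Fin d =>
      (n j.castSucc + (X : ℤ)).toNat / H)
    · intro n hn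
      rw [Finset.mem_coe, Fintype.mem_piFinset]
      intro j
      rw [Finset.mem_range]
      exact quot_lt hH1 ((hmem n hn).1 _)
    · intro n hn n' hn' hnn
      apply hfin
      apply zero_of d (fun i => ex d n i - ex d n' i) r s hco hr0 (hdiff n hn n' hn')
      intro i hi
      have h1 := congrFun hnn ⟨i, hi⟩
      have h2 := quot_close hH1 ((hmem n hn).1 _) ((hmem n' hn').1 _) h1
      have e1 : ex d n i = n (Fin.castSucc ⟨i, hi⟩) := by
        unfold ex
        rw [dif_pos (by omega)]
        rfl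
      have e2 : ex d n' i = n' (Fin.castSucc ⟨i, hi⟩) := by
        unfold ex
        rw [dif_pos (by omega)]
        rfl
      rw [e1, e2]
      have e3 : |r| = H := by
        rw [hHr, Int.abs_eq_natAbs]
      rw [e3]
      exact h2
  · have hHs : H = s.natAbs := by rw [hH, max_eq_right hrs]
    have hs0 : s ≠ 0 := by
      rintro rfl
      simp at hHs
      omega
    apply Finset.card_le_card_of_injOn (fun n : Fin (d + 1) → ℤ => fun j : Fin d =>
      (n j.succ + (X : ℤ)).toNat / H)
    · intro n hn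
      rw [Finset.mem_coe, Fintype.mem_piFinset]
      intro j
      rw [Finset.mem_range]
      exact quot_lt hH1 ((hmem n hn).1 _)
    · intro n hn n' hn' hnn
      apply hfin
      apply zero_of' d (fun i => ex d n i - ex d n' i) r s hco hs0 (hdiff n hn n' hn')
      intro i hi1 hi
      have h1 := congrFun hnn ⟨i - 1, by omega⟩
      have h2 := quot_close hH1 ((hmem n hn).1 _) ((hmem n' hn').1 _) h1
      have e0 : (Fin.succ ⟨i - 1, by omega⟩ : Fin (d + 1)) = ⟨i, by omega⟩ := by
        apply Fin.ext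
        simp only [Fin.val_succ]
        omega
      have e1 : ex d n i = n (Fin.succ ⟨i - 1, by omega⟩) := by
        unfold ex
        rw [dif_pos (by omega), e0]
      have e2 : ex d n' i = n' (Fin.succ ⟨i - 1, by omega⟩) := by
        unfold ex
        rw [dif_pos (by omega), e0]
      rw [e1, e2]
      have e3 : |s| = H := by
        rw [hHs, Int.abs_eq_natAbs]
      rw [e3]
      exact h2

end Pool.Agent.Q15.AP
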