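import Pool.Agent.Q15.AP.P1

/-! Finite invariant sets of a polynomial over `ℚ`: the heights of their members. -/

set_option autoImplicit false

namespace Pool.Agent.Q15.AP

/-- the polynomial function `(n_0 + n_1 x + ... + n_d x ^ d) / b` -/
def pf (d : ℕ) (n : Fin (d + 1) → ℤ) (b : ℕ) (x : ℚ) : ℚ :=
  (∑ i : Fin (d + 1), (n i : ℚ) * x ^ (i : ℕ)) / b

/-- the preperiodic points of a map -/
def Pre (f : ℚ → ℚ) : Set ℚ := {z | (Set.range fun k : ℕ => f^[k] z).Finite}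

/-- invariant finite sets -/
def Inv (f : ℚ → ℚ) (S : Finset ℚ) : Prop := ∀ x ∈ S, f x ∈ S

lemma pre_step {f : ℚ → ℚ} {z : ℚ} (hz : z ∈ Pre f) : f z ∈ Pre f := by
  refine Set.Finite.subset hz ?_
  rintro _ ⟨k, rfl⟩
  exact ⟨k + 1, Function.iterate_succ_apply _ _ _⟩

lemma fixed_pre {f : ℚ → ℚ} {x : ℚ} (h : f x = x) : x ∈ Pre f := by
  refine Set.Finite.subset (Set.finite_singleton x) ?_
  rintro _ ⟨k, rfl⟩
  rw [Set.mem_singleton_iff]
  exact Function.iterate_fixed h k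

lemma exists_orbit {f : ℚ → ℚ} {z : ℚ} (hz : z ∈ Pre f) : ∃ S : Finset ℚ, z ∈ S ∧ Inv f S := by
  classical
  have hfin : (Set.range fun k : ℕ => f^[k] z).Finite := hz
  refine ⟨hfin.toFinset, ?_, ?_⟩
  · rw [Set.Finite.mem_toFinset]
    exact ⟨0, rfl⟩
  · intro x hx
    rw [Set.Finite.mem_toFinset] at hx ⊢
    obtain ⟨k, rfl⟩ := hx
    exact ⟨k + 1, Function.iterate_succ_apply' _ _ _⟩

/-- two preperiodic points in an invariant finite set -/
lemma exists_two {f : ℚ → ℚ} (h : ∃ x ∈ Pre f, ∃ y ∈ Pre f, x ≠ y) :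
    ∃ S : Finset ℚ, Inv f S ∧ ∃ x ∈ S, ∃ y ∈ S, x ≠ y ∧ (f x = y ∨ (f x = x ∧ f y = y)) := by
  classical
  by_cases hA : ∃ x ∈ Pre f, f x ≠ x
  · obtain ⟨x, hx, hne⟩ := hA
    obtain ⟨S, hxS, hS⟩ := exists_orbit hx
    exact ⟨S, hS, x, hxS, f x, hS x hxS, Ne.symm hne, Or.inl rfl⟩
  · push Not at hA
    obtain ⟨x, hx, y, hy, hxy⟩ := h
    refine ⟨{x, y}, ?_, x, by simp, y, by simp, hxy, Or.inr ⟨hA x hx, hA y hy⟩⟩
    intro z hz
    rcases Finset.mem_insert.1 hz with rfl | hz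
    · rw [hA _ hx]
      simp
    · rw [Finset.mem_singleton.1 hz, hA _ hy]
      simp

section real

lemma geom_le {M : ℚ} (hM : 2 ≤ M) (k : ℕ) : ∑ i ∈ Finset.range (k + 1), M ^ i ≤ 2 * M ^ k := by
  induction k with
  | zero => norm_num
  | succ k ih =>
    rw [Finset.sum_range_succ]
    have h1 : 2 * M ^ k ≤ M ^ (k + 1) := by
      rw [pow_succ']
      exact mul_le_mul_of_nonneg_right hM (by positivity)
    linarith

variable {d X b : ℕ} {n : Fin (d + 1) → ℤ}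

lemma real_le (hd : 2 ≤ d) (hn : n ∈ box d X) (hlast : n (Fin.last d) ≠ 0) (hb : 1 ≤ b)
    (hbX : b ≤ X) {S : Finset ℚ} (hS : Inv (pf d n b) S) {x : ℚ} (hx : x ∈ S) :
    |(n (Fin.last d) : ℚ)| * |x| ≤ 3 * X := by
  obtain ⟨m, hm, hmax⟩ := S.exists_max_image (fun y => |y|) ⟨x, hx⟩
  have hnX : ∀ i, |(n i : ℚ)| ≤ X := by
    intro i
    have h1 := Fintype.mem_piFinset.1 hn i
    rw [Finset.mem_Icc] at h1
    have h2 : |n i| ≤ (X : ℤ) := abs_le.2 h1
    exact_mod_cast h2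
  obtain ⟨N, hN⟩ : ∃ N, N = |(n (Fin.last d) : ℚ)| := ⟨_, rfl⟩
  have hN1 : 1 ≤ N := by
    rw [hN]
    have : (1 : ℤ) ≤ |n (Fin.last d)| := Int.one_le_abs hlast
    exact_mod_cast this
  have hNX : N ≤ X := by rw [hN]; exact hnX _
  obtain ⟨M, hM⟩ : ∃ M, M = |m| := ⟨_, rfl⟩
  have hM0 : 0 ≤ M := by rw [hM]; exact abs_nonneg _
  have hxM : |x| ≤ M := by rw [hM]; exact hmax x hx
  rw [← hN]
  suffices h : N * M ≤ 3 * X from
    (mul_le_mul_of_nonneg_left hxM (by linarith)).trans h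
  by_contra hcon
  push Not at hcon
  have hM3 : 3 < M := by
    by_contra h
    push Not at h
    have : N * M ≤ X * 3 := mul_le_mul hNX h hM0 (by positivity)
    linarith
  obtain ⟨k, rfl⟩ : ∃ k, d = k + 1 := ⟨d - 1, by omega⟩
  have hb0 : (0 : ℚ) < b := by exact_mod_cast hb
  have hbX' : (b : ℚ) ≤ X := by exact_mod_cast hbX
  have h1 : (b : ℚ) * pf (k + 1) n b m = ∑ i : Fin (k + 1 + 1), (n i : ℚ) * m ^ (i : ℕ) := by
    unfold pf
    rw [mul_div_cancel₀ _ hb0.ne']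
  rw [Fin.sum_univ_castSucc] at h1
  have h2 : |∑ i : Fin (k + 1), (n i.castSucc : ℚ) * m ^ ((i.castSucc : Fin (k + 1 + 1)) : ℕ)| ≤
      X * (2 * M ^ k) := by
    calc _ ≤ ∑ i : Fin (k + 1), |(n i.castSucc : ℚ) * m ^ ((i.castSucc : Fin (k + 1 + 1)) : ℕ)| :=
          Finset.abs_sum_le_sum_abs _ _
      _ ≤ ∑ i : Fin (k + 1), (X : ℚ) * M ^ (i : ℕ) := by
          apply Finset.sum_le_sum
          intro i _
          rw [abs_mul, abs_pow, ← hM, Fin.val_castSucc]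
          exact mul_le_mul_of_nonneg_right (hnX _) (by positivity)
      _ = X * ∑ i ∈ Finset.range (k + 1), M ^ i := by
          rw [← Finset.mul_sum, Fin.sum_univ_eq_sum_range (fun i => M ^ i)]
      _ ≤ X * (2 * M ^ k) := by
          apply mul_le_mul_of_nonneg_left (geom_le (by linarith) k) (by positivity)
  have h3 : |pf (k + 1) n b m| ≤ M := by
    rw [hM]
    exact hmax _ (hS m hm)
  have h4 : N * M ^ (k + 1) ≤ X * M + X * (2 * M ^ k) := by
    have h5 : (n (Fin.last (k + 1)) : ℚ) * m ^ ((Fin.last (k + 1) : Fin (k + 1 + 1)) : ℕ) =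
        (b : ℚ) * pf (k + 1) n b m -
        ∑ i : Fin (k + 1), (n i.castSucc : ℚ) * m ^ ((i.castSucc : Fin (k + 1 + 1)) : ℕ) := by
      rw [h1]
      ring
    have h6 : N * M ^ (k + 1) =
        |(n (Fin.last (k + 1)) : ℚ) * m ^ ((Fin.last (k + 1) : Fin (k + 1 + 1)) : ℕ)| := by
      rw [abs_mul, abs_pow, ← hN, ← hM, Fin.val_last]
    rw [h6, h5]
    refine (abs_sub _ _).trans (add_le_add ?_ h2)
    rw [abs_mul, abs_of_pos hb0]
    exact mul_le_mul hbX' h3 (abs_nonneg _) (by positivity)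
  have h5 : M ≤ M ^ k := le_self_pow₀ (by linarith) (by omega)
  have h6 : (X : ℚ) * M ≤ X * M ^ k := mul_le_mul_of_nonneg_left h5 (by positivity)
  have h7 : 0 < M ^ k := by positivity
  have h8 : N * M * M ^ k ≤ 3 * X * M ^ k := by
    calc N * M * M ^ k = N * M ^ (k + 1) := by ring
      _ ≤ _ := h4
      _ ≤ 3 * X * M ^ k := by linarith
  have h9 := le_of_mul_le_mul_right h8 h7
  linarith

end real

section padic

variable {p : ℕ} [hp : Fact p.Prime]

lemma norm_pow (z : ℚ) (n : ℕ) : padicNorm p (z ^ n) = padicNorm p z ^ n := by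
  induction n with
  | zero => simp
  | succ n ih => rw [pow_succ, padicNorm.mul, ih, pow_succ]

variable {d b : ℕ} {n : Fin (d + 1) → ℤ}

lemma padic_le (hd : 2 ≤ d) (hb : 1 ≤ b) {S : Finset ℚ} (hS : Inv (pf d n b) S) {x : ℚ}
    (hx : x ∈ S) : padicNorm p ((n (Fin.last d) : ℚ) * x) ≤ 1 := by
  obtain ⟨N, hN⟩ : ∃ N : ℤ, N = n (Fin.last d) := ⟨_, rfl⟩
  rw [← hN]
  obtain ⟨m, hm, hmax⟩ := S.exists_max_image (fun y => padicNorm p ((N : ℚ) * y)) ⟨x, hx⟩
  by_contra hcon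
  push Not at hcon
  obtain ⟨M, hM⟩ : ∃ M, M = padicNorm p ((N : ℚ) * m) := ⟨_, rfl⟩
  have hM1 : 1 < M := by
    rw [hM]
    exact hcon.trans_le (hmax x hx)
  obtain ⟨k, rfl⟩ : ∃ k, d = k + 1 := ⟨d - 1, by omega⟩
  have hb0 : (0 : ℚ) < b := by exact_mod_cast hb
  have h1 : (b : ℚ) * pf (k + 1) n b m = ∑ i : Fin (k + 1 + 1), (n i : ℚ) * m ^ (i : ℕ) := by
    unfold pf
    rw [mul_div_cancel₀ _ hb0.ne']
  rw [Fin.sum_univ_castSucc, Fin.val_last, ← hN] at h1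
  obtain ⟨l, rfl⟩ : ∃ l, k = l + 1 := ⟨k - 1, by omega⟩
  have key : ((N : ℚ) * m) ^ (l + 1 + 1) = ((b : ℤ) * N ^ l : ℤ) * ((N : ℚ) * pf (l + 1 + 1) n b m) +
      ∑ i : Fin (l + 1 + 1), ((-(n i.castSucc) * N ^ (l + 1 - i) : ℤ) : ℚ) *
        ((N : ℚ) * m) ^ (i : ℕ) := by
    have h2 : ((b : ℤ) * N ^ l : ℤ) * ((N : ℚ) * pf (l + 1 + 1) n b m) =
        (N : ℚ) ^ (l + 1) * ((b : ℚ) * pf (l + 1 + 1) n b m) := by
      push_cast
      ring
    have h3 : ∀ i : Fin (l + 1 + 1), ((-(n i.castSucc) * N ^ (l + 1 - i) : ℤ) : ℚ) *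
        ((N : ℚ) * m) ^ (i : ℕ) = -((N : ℚ) ^ (l + 1) * ((n i.castSucc : ℚ) *
          m ^ ((i.castSucc : Fin (l + 1 + 1 + 1)) : ℕ))) := by
      intro i
      have h4 : (N : ℚ) ^ (l + 1) = (N : ℚ) ^ (l + 1 - i) * (N : ℚ) ^ (i : ℕ) := by
        rw [← pow_add]
        congr 1
        omega
      rw [h4, Fin.val_castSucc]
      push_cast
      ring
    rw [h2, h1, Finset.sum_congr rfl fun i _ => h3 i, Finset.sum_neg_distrib, ← Finset.mul_sum]
    ring
  have hint : ∀ z : ℤ, padicNorm p (z : ℚ) ≤ 1 := fun z => padicNorm.of_int z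
  have hpow : ∀ i : ℕ, i ≤ l + 1 → M ^ i ≤ M ^ (l + 1) := fun i hi =>
    pow_le_pow_right₀ hM1.le hi
  have h2 : M ^ (l + 1 + 1) ≤ M ^ (l + 1) := by
    have h3 : padicNorm p (((N : ℚ) * m) ^ (l + 1 + 1)) = M ^ (l + 1 + 1) := by
      rw [norm_pow, ← hM]
    rw [← h3, key]
    refine (padicNorm.nonarchimedean).trans (max_le ?_ ?_)
    · rw [padicNorm.mul]
      have h4 := hmax _ (hS m hm)
      rw [← hM] at h4
      calc _ ≤ 1 * M := mul_le_mul (hint _) h4 (padicNorm.nonneg _) zero_le_one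
        _ = M ^ 1 := by rw [one_mul, pow_one]
        _ ≤ M ^ (l + 1) := hpow 1 (by omega)
    · apply padicNorm.sum_le'
      · intro i _
        rw [padicNorm.mul, norm_pow, ← hM]
        calc _ ≤ 1 * M ^ (i : ℕ) := mul_le_mul_of_nonneg_right (hint _) (by positivity)
          _ = M ^ (i : ℕ) := one_mul _
          _ ≤ M ^ (l + 1) := hpow _ (by omega)
      · positivity
  have h3 : M ^ (l + 1) < M ^ (l + 1 + 1) := pow_lt_pow_right₀ hM1 (by omega)
  linarith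

end padic

/-- a rational number which is integral at all primes -/
lemma den_eq_one {q : ℚ} (h : ∀ p : ℕ, p.Prime → padicNorm p q ≤ 1) : q.den = 1 := by
  by_contra hne
  obtain ⟨p, hp, hpd⟩ := Nat.exists_prime_and_dvd hne
  have hf : Fact p.Prime := ⟨hp⟩
  have h1 := h p hp
  have hq : q ≠ 0 := by
    rintro rfl
    simp at hne
  rw [padicNorm.eq_zpow_of_nonzero hq] at h1
  have h2 : ¬ (p : ℤ) ∣ q.num := by
    intro h3
    have h4 : p ∣ q.num.natAbs := Int.natCast_dvd.1 h3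
    have h5 := Nat.dvd_gcd h4 hpd
    rw [q.reduced] at h5
    exact hp.one_lt.ne' (Nat.dvd_one.1 h5)
  have h3 : padicValRat p q = (padicValInt p q.num : ℤ) - padicValNat p q.den := rfl
  rw [h3, padicValInt.eq_zero_of_not_dvd h2] at h1
  have hp1 : (1 : ℚ) < p := by exact_mod_cast hp.one_lt
  have h4 := (zpow_le_one_iff_right₀ hp1).1 h1
  have h5 : 1 ≤ padicValNat p q.den := one_le_padicValNat_of_dvd q.den_nz hpd
  omega

section

variable {d X b : ℕ} {n : Fin (d + 1) → ℤ}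

/-- the heights of the members of invariant finite sets -/
theorem height_le (hd : 2 ≤ d) (hn : n ∈ box d X) (hlast : n (Fin.last d) ≠ 0) (hb : 1 ≤ b)
    (hbX : b ≤ X) {S : Finset ℚ} (hS : Inv (pf d n b) S) {x : ℚ} (hx : x ∈ S) :
    max x.num.natAbs x.den ≤ 3 * X := by
  obtain ⟨N, hN⟩ : ∃ N : ℤ, N = n (Fin.last d) := ⟨_, rfl⟩
  rw [← hN] at hlast
  have h1 : ((N : ℚ) * x).den = 1 := by
    apply den_eq_one
    intro p hp
    have hf : Fact p.Prime := ⟨hp⟩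
    rw [hN]
    exact padic_le hd hb hS hx
  have hN0 : (N : ℚ) ≠ 0 := by exact_mod_cast hlast
  have h2 : x.den ∣ N.natAbs := by
    obtain ⟨k, hk⟩ : ∃ k : ℤ, (N : ℚ) * x = k := by
      refine ⟨((N : ℚ) * x).num, ?_⟩
      conv_lhs => rw [← Rat.num_div_den ((N : ℚ) * x), h1]
      simp
    have h3 : x = Rat.divInt k N := by
      rw [Rat.divInt_eq_div, ← hk, mul_div_cancel_left₀ _ hN0]
    have h4 := Rat.den_dvd k N
    rw [← h3] at h4
    exact Int.natCast_dvd.1 h4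
  have hNX : N.natAbs ≤ X := by
    have h3 := Fintype.mem_piFinset.1 hn (Fin.last d)
    rw [Finset.mem_Icc, ← hN] at h3
    omega
  have hden : x.den ≤ N.natAbs := Nat.le_of_dvd (Int.natAbs_pos.2 hlast) h2
  have hreal := real_le hd hn (by rw [← hN]; exact hlast) hb hbX hS hx
  rw [← hN] at hreal
  have hnum : (x.num.natAbs : ℚ) ≤ 3 * X := by
    have h3 : (x.num.natAbs : ℚ) = |x| * x.den := by
      have hxd : (0 : ℚ) < x.den := by exact_mod_cast x.den_pos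
      have h4 : |x| = |(x.num : ℚ)| / x.den := by
        conv_lhs => rw [← Rat.num_div_den x]
        rw [abs_div, abs_of_pos hxd]
      rw [h4, div_mul_cancel₀ _ hxd.ne', Nat.cast_natAbs]
      push_cast
      rfl
    rw [h3]
    have h4 : (x.den : ℚ) ≤ |(N : ℚ)| := by
      have h5 : (x.den : ℚ) ≤ (N.natAbs : ℚ) := by exact_mod_cast hden
      rw [Nat.cast_natAbs] at h5
      push_cast at h5
      exact h5
    calc |x| * x.den ≤ |x| * |(N : ℚ)| := mul_le_mul_of_nonneg_left h4 (abs_nonneg _)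
      _ = |(N : ℚ)| * |x| := mul_comm _ _
      _ ≤ 3 * X := hreal
  have h5 : x.num.natAbs ≤ 3 * X := by exact_mod_cast hnum
  omega

/-- the value of the form from the value of the function -/
lemma val_of (hb : 1 ≤ b) {x y : ℚ} (h : pf d n b x = y) :
    val d n x.num x.den = ((x.den : ℚ) ^ d * b * y).num := by
  have hb0 : (b : ℚ) ≠ 0 := by
    have : b ≠ 0 := by omega
    exact_mod_cast this
  have hs0 : (x.den : ℚ) ≠ 0 := by exact_mod_cast x.den_nz
  have h1 : ((val d n x.num x.den : ℤ) : ℚ) = (x.den : ℚ) ^ d * b * y := by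
    rw [← h]
    unfold pf val
    rw [mul_assoc, mul_div_cancel₀ _ hb0, Finset.mul_sum]
    push_cast
    apply Finset.sum_congr rfl
    intro i _
    have h2 : x ^ (i : ℕ) = (x.num : ℚ) ^ (i : ℕ) / (x.den : ℚ) ^ (i : ℕ) := by
      rw [← div_pow, Rat.num_div_den]
    have h3 : (x.den : ℚ) ^ d = (x.den : ℚ) ^ (d - i) * (x.den : ℚ) ^ (i : ℕ) := by
      rw [← pow_add]
      congr 1
      omega
    rw [h2, h3]
    have h4 : (x.den : ℚ) ^ (i : ℕ) ≠ 0 := pow_ne_zero _ hs0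
    field_simp
  rw [← h1, Rat.num_intCast]

end

end Pool.Agent.Q15.AP
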