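import Pool.Agent.Q15.AP.P2

/-! The number of the data with a preperiodic point of large height, or with two of small height. -/

set_option autoImplicit false

namespace Pool.Agent.Q15.AP

/-- the height of a rational number -/
def ht (x : ℚ) : ℕ := max x.num.natAbs x.den

lemma ht_pos (x : ℚ) : 1 ≤ ht x := le_max_of_le_right x.den_pos

open Classical in
/-- rational numbers of height `h` -/
noncomputable def Rh (h : ℕ) : Finset ℚ :=
  (((({-(h : ℤ), (h : ℤ)} : Finset ℤ) ×ˢ Finset.Icc 1 h) ∪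
    (Finset.Icc (-(h : ℤ)) h ×ˢ {h})).image fun p => (p.1 : ℚ) / p.2).filter fun x => ht x = h

open Classical in
/-- rational numbers of height at most `h` -/
noncomputable def Rle (h : ℕ) : Finset ℚ :=
  ((Finset.Icc (-(h : ℤ)) h ×ˢ Finset.Icc 1 h).image fun p => (p.1 : ℚ) / p.2)

lemma mem_Rh (x : ℚ) : x ∈ Rh (ht x) := by
  classical
  unfold Rh
  rw [Finset.mem_filter]
  refine ⟨?_, rfl⟩
  rw [Finset.mem_image]
  refine ⟨(x.num, x.den), ?_, Rat.num_div_den x⟩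
  rw [Finset.mem_union, Finset.mem_product, Finset.mem_product]
  have h1 : x.den ≤ ht x := le_max_right _ _
  have h2 : x.num.natAbs ≤ ht x := le_max_left _ _
  have h3 := x.den_pos
  rcases max_choice x.num.natAbs x.den with h | h
  · left
    have h4 : ht x = x.num.natAbs := h
    simp only [Finset.mem_insert, Finset.mem_singleton, Finset.mem_Icc]
    omega
  · right
    have h4 : ht x = x.den := h
    simp only [Finset.mem_singleton, Finset.mem_Icc]
    omega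

lemma mem_Rle {x : ℚ} {h : ℕ} (hx : ht x ≤ h) : x ∈ Rle h := by
  classical
  unfold Rle
  rw [Finset.mem_image]
  refine ⟨(x.num, x.den), ?_, Rat.num_div_den x⟩
  rw [Finset.mem_product]
  have h1 : x.den ≤ ht x := le_max_right _ _
  have h2 : x.num.natAbs ≤ ht x := le_max_left _ _
  have h3 := x.den_pos
  simp only [Finset.mem_Icc]
  omega

lemma card_Rh {h : ℕ} (hh : 1 ≤ h) : (Rh h).card ≤ 5 * h := by
  classical
  unfold Rh
  refine (Finset.card_filter_le _ _).trans ?_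
  refine Finset.card_image_le.trans ?_
  refine (Finset.card_union_le _ _).trans ?_
  rw [Finset.card_product, Finset.card_product, Nat.card_Icc, Int.card_Icc, Finset.card_singleton]
  have h1 : ({-(h : ℤ), (h : ℤ)} : Finset ℤ).card ≤ 2 := Finset.card_le_two
  have h2 : ((h : ℤ) + 1 - -(h : ℤ)).toNat = 2 * h + 1 := by omega
  rw [h2]
  have h3 : ({-(h : ℤ), (h : ℤ)} : Finset ℤ).card * (h + 1 - 1) ≤ 2 * (h + 1 - 1) :=
    Nat.mul_le_mul_right _ h1
  omega

lemma card_Rle {h : ℕ} (hh : 1 ≤ h) : (Rle h).card ≤ 3 * h ^ 2 := by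
  classical
  unfold Rle
  refine Finset.card_image_le.trans ?_
  rw [Finset.card_product, Nat.card_Icc, Int.card_Icc]
  have h2 : ((h : ℤ) + 1 - -(h : ℤ)).toNat = 2 * h + 1 := by omega
  rw [h2]
  have h3 : (2 * h + 1) * (h + 1 - 1) ≤ (3 * h) * h := Nat.mul_le_mul (by omega) (by omega)
  calc _ ≤ (3 * h) * h := h3
    _ = 3 * h ^ 2 := by ring

open Classical in
/-- data with a point of height at least `K` -/
noncomputable def E1 (d X K : ℕ) : Finset ((Fin (d + 1) → ℤ) × ℕ) :=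
  (Finset.Icc K (3 * X)).biUnion fun h => (Rh h).biUnion fun x => (Rle h).biUnion fun y =>
    (Finset.Icc 1 X).biUnion fun b =>
      (Sol d X x.num x.den ((x.den : ℚ) ^ d * b * y).num).image fun n => (n, b)

lemma card_E1_nat {d X K : ℕ} (hK : 1 ≤ K) : (E1 d X K).card ≤
    ∑ h ∈ Finset.Icc K (3 * X), (5 * h) * ((3 * h ^ 2) * (X * (2 * X / h + 1) ^ d)) := by
  classical
  unfold E1
  refine Finset.card_biUnion_le.trans ?_
  apply Finset.sum_le_sum
  intro h hh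
  have hh1 : 1 ≤ h := hK.trans (Finset.mem_Icc.1 hh).1
  refine (Finset.card_biUnion_le_card_mul _ _ ((3 * h ^ 2) * (X * (2 * X / h + 1) ^ d)) ?_).trans
    (Nat.mul_le_mul_right _ (card_Rh hh1))
  intro x hx
  refine (Finset.card_biUnion_le_card_mul _ _ (X * (2 * X / h + 1) ^ d) ?_).trans
    (Nat.mul_le_mul_right _ (card_Rle hh1))
  intro y _
  refine (Finset.card_biUnion_le_card_mul _ _ ((2 * X / h + 1) ^ d) ?_).trans ?_
  · intro b _
    refine Finset.card_image_le.trans ?_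
    have hco : IsCoprime x.num (x.den : ℤ) := by
      have := x.reduced
      rw [← Int.natAbs_natCast x.den] at this
      exact Int.isCoprime_iff_gcd_eq_one.2 this
    have hxh : ht x = h := (Finset.mem_filter.1 hx).2
    apply sol_card hco _ hh1
    rw [Int.natAbs_natCast, ← hxh]
    rfl
  · rw [Nat.card_Icc, Nat.add_sub_cancel]

/-- The number of data with a point of height at least `K`. -/
theorem card_E1 {d X K : ℕ} (hd : 5 ≤ d) (hK : 1 ≤ K) (hX : 1 ≤ X) : ((E1 d X K).card : ℝ) ≤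
    30 * 5 ^ d * (X : ℝ) ^ (d + 1) / (K : ℝ) ^ (d - 4) := by
  have hK0 : (0 : ℝ) < K := by exact_mod_cast hK
  have hX0 : (0 : ℝ) < X := by exact_mod_cast hX
  have h1 : ∀ h ∈ Finset.Icc K (3 * X),
      (((5 * h) * ((3 * h ^ 2) * (X * (2 * X / h + 1) ^ d)) : ℕ) : ℝ) ≤
      15 * 5 ^ d * (X : ℝ) ^ (d + 1) / (K : ℝ) ^ (d - 5) * ((h : ℝ) ^ 2)⁻¹ := by
    intro h hh
    obtain ⟨hh1, hh2⟩ := Finset.mem_Icc.1 hh
    have hh0 : (0 : ℝ) < h := by
      have : 0 < h := by omega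
      exact_mod_cast this
    have h2 : (((2 * X / h + 1 : ℕ)) : ℝ) ≤ 5 * X / h := by
      have h3 : ((2 * X / h : ℕ) : ℝ) ≤ ((2 * X : ℕ) : ℝ) / h := Nat.cast_div_le
      have h4 : (1 : ℝ) ≤ 3 * X / h := by
        rw [le_div_iff₀ hh0, one_mul]
        exact_mod_cast hh2
      push_cast at h3 ⊢
      have h5 : 5 * (X : ℝ) / h = 2 * X / h + 3 * X / h := by ring
      linarith
    have h6 : (h : ℝ) ^ d = (h : ℝ) ^ (d - 5) * (h : ℝ) ^ 5 := by
      rw [← pow_add]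
      congr 1
      omega
    calc (((5 * h) * ((3 * h ^ 2) * (X * (2 * X / h + 1) ^ d)) : ℕ) : ℝ) =
        (5 * (h : ℝ)) * ((3 * (h : ℝ) ^ 2) * (X * (((2 * X / h + 1 : ℕ)) : ℝ) ^ d)) := by
          push_cast
          ring
      _ ≤ (5 * (h : ℝ)) * ((3 * (h : ℝ) ^ 2) * (X * (5 * X / h) ^ d)) := by gcongr
      _ = 15 * 5 ^ d * (X : ℝ) ^ (d + 1) * ((h : ℝ) ^ (d - 5))⁻¹ * ((h : ℝ) ^ 2)⁻¹ := by
          rw [div_pow, mul_pow, h6, pow_succ (X : ℝ) d]
          field_simp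
          norm_num
      _ ≤ 15 * 5 ^ d * (X : ℝ) ^ (d + 1) * ((K : ℝ) ^ (d - 5))⁻¹ * ((h : ℝ) ^ 2)⁻¹ := by
          have : (K : ℝ) ≤ h := by exact_mod_cast hh1
          gcongr
      _ = _ := by
          rw [div_eq_mul_inv]
  have h2 : ∑ h ∈ Finset.Icc K (3 * X), ((h : ℝ) ^ 2)⁻¹ ≤ 2 / K := by
    have h3 : Finset.Icc K (3 * X) = Finset.Ioo (K - 1) (3 * X + 1) := by
      ext h
      rw [Finset.mem_Icc, Finset.mem_Ioo]
      omega
    rw [h3]
    have h4 := sum_Ioo_inv_sq_le (α := ℝ) (K - 1) (3 * X + 1)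
    have h5 : ((K - 1 : ℕ) : ℝ) + 1 = K := by
      rw [Nat.cast_sub hK]
      push_cast
      ring
    rwa [h5] at h4
  have h3 : (K : ℝ) ^ (d - 4) = (K : ℝ) ^ (d - 5) * K := by
    rw [← pow_succ]
    congr 1
    omega
  calc ((E1 d X K).card : ℝ) ≤
      ((∑ h ∈ Finset.Icc K (3 * X), (5 * h) * ((3 * h ^ 2) * (X * (2 * X / h + 1) ^ d)) : ℕ) : ℝ) :=
        Nat.cast_le.2 (card_E1_nat hK)
    _ ≤ ∑ h ∈ Finset.Icc K (3 * X),
        15 * 5 ^ d * (X : ℝ) ^ (d + 1) / (K : ℝ) ^ (d - 5) * ((h : ℝ) ^ 2)⁻¹ := by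
        rw [Nat.cast_sum]
        exact Finset.sum_le_sum h1
    _ = 15 * 5 ^ d * (X : ℝ) ^ (d + 1) / (K : ℝ) ^ (d - 5) *
        ∑ h ∈ Finset.Icc K (3 * X), ((h : ℝ) ^ 2)⁻¹ := by rw [Finset.mul_sum]
    _ ≤ 15 * 5 ^ d * (X : ℝ) ^ (d + 1) / (K : ℝ) ^ (d - 5) * (2 / K) := by gcongr
    _ = _ := by
        rw [h3]
        field_simp
        ring

open Classical in
/-- data with two given values -/
noncomputable def Two (d X : ℕ) (x y u v : ℚ) : Finset ((Fin (d + 1) → ℤ) × ℕ) :=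
  (box d X ×ˢ Finset.Icc 1 X).filter fun t => pf d t.1 t.2 x = u ∧ pf d t.1 t.2 y = v

lemma card_Two {k X : ℕ} {x y u v : ℚ} (hxy : x ≠ y) :
    (Two (k + 1) X x y u v).card ≤ X * (2 * X + 1) ^ k := by
  classical
  have hT : ((Fintype.piFinset fun _ : Fin k => Finset.Icc (-(X : ℤ)) X) ×ˢ
      Finset.Icc 1 X).card = X * (2 * X + 1) ^ k := by
    rw [Finset.card_product, Fintype.card_piFinset, Nat.card_Icc, Nat.add_sub_cancel]
    simp only [Int.card_Icc, Finset.prod_const, Finset.card_univ, Fintype.card_fin]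
    have h2 : ((X : ℤ) + 1 - -(X : ℤ)).toNat = 2 * X + 1 := by omega
    rw [h2, mul_comm]
  rw [← hT]
  apply Finset.card_le_card_of_injOn
    (fun t : (Fin (k + 1 + 1) → ℤ) × ℕ => ((fun j : Fin k => t.1 j.succ.succ), t.2))
  · intro t ht
    obtain ⟨h1, -⟩ := Finset.mem_filter.1 (Finset.mem_coe.1 ht)
    obtain ⟨h2, h3⟩ := Finset.mem_product.1 h1
    rw [Finset.mem_coe, Finset.mem_product]
    refine ⟨?_, h3⟩
    rw [Fintype.mem_piFinset]
    intro j
    exact Fintype.mem_piFinset.1 h2 _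
  · rintro ⟨n, b⟩ hn ⟨n', b'⟩ hn' hnn
    obtain ⟨h1, h2, h3⟩ := Finset.mem_filter.1 (Finset.mem_coe.1 hn)
    obtain ⟨h1', h2', h3'⟩ := Finset.mem_filter.1 (Finset.mem_coe.1 hn')
    simp only at h2 h3 h2' h3'
    have hb : b = b' := (Prod.mk.inj hnn).2
    have hj := congrFun (Prod.mk.inj hnn).1
    simp only at hj
    subst hb
    have hb1 := (Finset.mem_Icc.1 (Finset.mem_product.1 h1).2).1
    have hb0 : (b : ℚ) ≠ 0 := by
      have : b ≠ 0 := by
        simp only at hb1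
        omega
      exact_mod_cast this
    have key : ∀ z w : ℚ, pf (k + 1) n b z = w → pf (k + 1) n' b z = w →
        (n 0 : ℚ) + n 1 * z = n' 0 + n' 1 * z := by
      intro z w hz hz'
      have h4 : pf (k + 1) n b z = pf (k + 1) n' b z := by rw [hz, hz']
      unfold pf at h4
      rw [div_left_inj' hb0, Fin.sum_univ_succ, Fin.sum_univ_succ, Fin.sum_univ_succ (n := k + 1),
        Fin.sum_univ_succ (n := k)] at h4
      have h5 : ∑ i : Fin k, (n i.succ.succ : ℚ) * z ^ ((i.succ.succ : Fin (k + 1 + 1)) : ℕ) =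
          ∑ i : Fin k, (n' i.succ.succ : ℚ) * z ^ ((i.succ.succ : Fin (k + 1 + 1)) : ℕ) := by
        apply Finset.sum_congr rfl
        intro i _
        rw [hj i]
      rw [h5] at h4
      simp only [Fin.val_zero, pow_zero, mul_one, Fin.succ_zero_eq_one, Fin.val_one, pow_one] at h4
      linarith
    have k1 := key x u h2 h2'
    have k2 := key y v h3 h3'
    have h6 : ((n 1 : ℚ) - n' 1) * (x - y) = 0 := by linear_combination k1 - k2
    have h7 : (n 1 : ℚ) = n' 1 := by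
      rcases mul_eq_zero.1 h6 with h8 | h8
      · linarith
      · exact absurd (sub_eq_zero.1 h8) hxy
    have h8 : (n 0 : ℚ) = n' 0 := by
      rw [h7] at k1
      linarith
    have h9 : n = n' := by
      funext i
      refine Fin.cases ?_ (fun i => Fin.cases ?_ (fun i => ?_) i) i
      · exact_mod_cast h8
      · exact_mod_cast h7
      · exact hj i
    rw [h9]

open Classical in
/-- data with two points of height at most `K` -/
noncomputable def E2 (d X K : ℕ) : Finset ((Fin (d + 1) → ℤ) × ℕ) :=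
  (Rle K ×ˢ (Rle K ×ˢ Rle K)).biUnion fun t =>
    if t.1 ≠ t.2.1 then Two d X t.1 t.2.1 t.2.1 t.2.2 ∪ Two d X t.1 t.2.1 t.1 t.2.1 else ∅

theorem card_E2 {d X K : ℕ} (hd : 5 ≤ d) (hK : 1 ≤ K) (hX : 1 ≤ X) :
    ((E2 d X K).card : ℝ) ≤ 54 * 3 ^ d * (K : ℝ) ^ 6 * (X : ℝ) ^ d := by
  classical
  obtain ⟨k, rfl⟩ : ∃ k, d = k + 1 := ⟨d - 1, by omega⟩
  have h1 : (E2 (k + 1) X K).card ≤ (3 * K ^ 2) ^ 3 * (2 * (X * (2 * X + 1) ^ k)) := by
    unfold E2
    refine (Finset.card_biUnion_le_card_mul _ _ (2 * (X * (2 * X + 1) ^ k)) ?_).trans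
      (Nat.mul_le_mul_right _ ?_)
    · intro t _
      split_ifs with h
      · refine (Finset.card_union_le _ _).trans ?_
        have h2 := card_Two (k := k) (X := X) (u := t.2.1) (v := t.2.2) h
        have h3 := card_Two (k := k) (X := X) (u := t.1) (v := t.2.1) h
        omega
      · rw [Finset.card_empty]
        exact Nat.zero_le _
    · rw [Finset.card_product, Finset.card_product]
      have h2 := card_Rle hK
      calc _ ≤ (3 * K ^ 2) * ((3 * K ^ 2) * (3 * K ^ 2)) :=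
            Nat.mul_le_mul h2 (Nat.mul_le_mul h2 h2)
        _ = (3 * K ^ 2) ^ 3 := by ring
  have hX1 : (1 : ℝ) ≤ X := by exact_mod_cast hX
  calc ((E2 (k + 1) X K).card : ℝ) ≤
      (((3 * K ^ 2) ^ 3 * (2 * (X * (2 * X + 1) ^ k)) : ℕ) : ℝ) := Nat.cast_le.2 h1
    _ = 54 * (K : ℝ) ^ 6 * X * (2 * X + 1) ^ k := by
        push_cast
        ring
    _ ≤ 54 * (K : ℝ) ^ 6 * X * (3 * X) ^ k := by
        gcongr
        linarith
    _ = 54 * 3 ^ k * (K : ℝ) ^ 6 * (X : ℝ) ^ (k + 1) := by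
        rw [mul_pow]
        ring
    _ ≤ 54 * 3 ^ (k + 1) * (K : ℝ) ^ 6 * (X : ℝ) ^ (k + 1) := by
        gcongr
        · norm_num
        · omega

/-- all data -/
noncomputable def Dat (d X : ℕ) : Finset ((Fin (d + 1) → ℤ) × ℕ) := box d X ×ˢ Finset.Icc 1 X

/-- data with a preperiodic point are in `E1` with `K = 1` -/
theorem mem_E1 {d X : ℕ} (hd : 2 ≤ d) {t : (Fin (d + 1) → ℤ) × ℕ} (hD : t ∈ Dat d X)
    (hlast : t.1 (Fin.last d) ≠ 0) (h : (Pre (pf d t.1 t.2)).Nonempty) : t ∈ E1 d X 1 := by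
  classical
  obtain ⟨h1, h2⟩ := Finset.mem_product.1 hD
  obtain ⟨h3, h4⟩ := Finset.mem_Icc.1 h2
  obtain ⟨z, hz⟩ := h
  obtain ⟨S, hzS, hS⟩ := exists_orbit hz
  obtain ⟨x, hx, hmax⟩ := S.exists_max_image ht ⟨z, hzS⟩
  unfold E1
  rw [Finset.mem_biUnion]
  refine ⟨ht x, Finset.mem_Icc.2 ⟨ht_pos x, height_le hd h1 hlast h3 h4 hS hx⟩, ?_⟩
  rw [Finset.mem_biUnion]
  refine ⟨x, mem_Rh x, ?_⟩
  rw [Finset.mem_biUnion]
  refine ⟨pf d t.1 t.2 x, mem_Rle (hmax _ (hS x hx)), ?_⟩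
  rw [Finset.mem_biUnion]
  refine ⟨t.2, h2, ?_⟩
  rw [Finset.mem_image]
  refine ⟨t.1, ?_, rfl⟩
  unfold Sol
  rw [Finset.mem_filter]
  exact ⟨h1, val_of h3 rfl⟩

/-- data with two preperiodic points are in `E1` or in `E2` -/
theorem mem_E {d X K : ℕ} (hd : 2 ≤ d) {t : (Fin (d + 1) → ℤ) × ℕ} (hD : t ∈ Dat d X)
    (hlast : t.1 (Fin.last d) ≠ 0)
    (h : ∃ x ∈ Pre (pf d t.1 t.2), ∃ y ∈ Pre (pf d t.1 t.2), x ≠ y) :
    t ∈ E1 d X K ∪ E2 d X K := by
  classical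
  obtain ⟨h1, h2⟩ := Finset.mem_product.1 hD
  obtain ⟨h3, h4⟩ := Finset.mem_Icc.1 h2
  obtain ⟨S, hS, x0, hx0, y0, hy0, hne, hcase⟩ := exists_two h
  obtain ⟨x, hx, hmax⟩ := S.exists_max_image ht ⟨x0, hx0⟩
  rw [Finset.mem_union]
  rcases Nat.lt_or_ge (ht x) K with hK | hK
  · right
    have hle : ∀ z ∈ S, z ∈ Rle K := fun z hz => mem_Rle ((hmax z hz).trans hK.le)
    unfold E2
    rw [Finset.mem_biUnion]
    have hTwo : ∀ u v : ℚ, pf d t.1 t.2 x0 = u → pf d t.1 t.2 y0 = v → t ∈ Two d X x0 y0 u v := by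
      intro u v hu hv
      unfold Two
      rw [Finset.mem_filter]
      exact ⟨hD, hu, hv⟩
    rcases hcase with hc | ⟨hc1, hc2⟩
    · refine ⟨(x0, (y0, pf d t.1 t.2 y0)), ?_, ?_⟩
      · rw [Finset.mem_product, Finset.mem_product]
        exact ⟨hle _ hx0, hle _ hy0, hle _ (hS _ hy0)⟩
      · rw [if_pos hne, Finset.mem_union]
        exact Or.inl (hTwo _ _ hc rfl)
    · refine ⟨(x0, (y0, x0)), ?_, ?_⟩
      · rw [Finset.mem_product, Finset.mem_product]
        exact ⟨hle _ hx0, hle _ hy0, hle _ hx0⟩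
      · rw [if_pos hne, Finset.mem_union]
        exact Or.inr (hTwo _ _ hc1 hc2)
  · left
    unfold E1
    rw [Finset.mem_biUnion]
    refine ⟨ht x, Finset.mem_Icc.2 ⟨hK, height_le hd h1 hlast h3 h4 hS hx⟩, ?_⟩
    rw [Finset.mem_biUnion]
    refine ⟨x, mem_Rh x, ?_⟩
    rw [Finset.mem_biUnion]
    refine ⟨pf d t.1 t.2 x, mem_Rle (hmax _ (hS x hx)), ?_⟩
    rw [Finset.mem_biUnion]
    refine ⟨t.2, h2, ?_⟩
    rw [Finset.mem_image]
    refine ⟨t.1, ?_, rfl⟩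
    unfold Sol
    rw [Finset.mem_filter]
    exact ⟨h1, val_of h3 rfl⟩

end Pool.Agent.Q15.AP
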