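import Pool.Agent.Q15.AP.P3
import Pool.Agent.Q15.AU.A7
import Pool.Agent.Q15.UM.U5

/-! All polynomials of degree `d` over `ℚ`. -/

set_option autoImplicit false

namespace Pool.Agent.Q15.AP

open Polynomial

/-- the rational preperiodic points of a polynomial -/
def pre (f : ℚ[X]) : Set ℚ := {x | (Set.range fun k : ℕ => (fun y : ℚ => f.eval y)^[k] x).Finite}

/-- polynomials of degree `d` and height at most `H` -/
def polys (d H : ℕ) : Set ℚ[X] :=
  {f | f.natDegree = d ∧ ∃ b : ℕ, 0 < b ∧ b ≤ H ∧ ∀ i, ∃ m : ℤ, |m| ≤ H ∧ (b : ℚ) * f.coeff i = m}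

/-- those with a rational preperiodic point -/
def Par (d H : ℕ) : Set ℚ[X] := {f | f ∈ polys d H ∧ (pre f).Nonempty}

/-- exactly one rational preperiodic point, a fixed point -/
def Typ (f : ℚ[X]) : Prop := ∃ x : ℚ, f.eval x = x ∧ pre f = {x}

/-- the others -/
def Exc (d H : ℕ) : Set ℚ[X] := {f | f ∈ Par d H ∧ ¬ Typ f}

/-- the polynomial of a datum -/
noncomputable def toPoly (d : ℕ) (t : (Fin (d + 1) → ℤ) × ℕ) : ℚ[X] :=
  ∑ i : Fin (d + 1), C ((t.1 i : ℚ) / t.2) * X ^ (i : ℕ)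

lemma coeff_toPoly (d : ℕ) (t : (Fin (d + 1) → ℤ) × ℕ) (i : ℕ) :
    (toPoly d t).coeff i = if h : i < d + 1 then (t.1 ⟨i, h⟩ : ℚ) / t.2 else 0 := by
  unfold toPoly
  rw [finsetSum_coeff]
  simp only [coeff_C_mul, coeff_X_pow, mul_ite, mul_one, mul_zero]
  split_ifs with h
  · rw [Finset.sum_eq_single ⟨i, h⟩]
    · simp
    · intro j _ hj
      rw [if_neg]
      intro h1
      apply hj
      apply Fin.ext
      exact h1.symm
    · intro h1
      exact absurd (Finset.mem_univ _) h1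
  · apply Finset.sum_eq_zero
    intro j _
    rw [if_neg]
    intro h1
    apply h
    rw [h1]
    exact j.2

lemma eval_toPoly (d : ℕ) (t : (Fin (d + 1) → ℤ) × ℕ) (x : ℚ) :
    (toPoly d t).eval x = pf d t.1 t.2 x := by
  unfold toPoly pf
  rw [eval_finsetSum, Finset.sum_div]
  apply Finset.sum_congr rfl
  intro i _
  rw [eval_mul, eval_C, eval_pow, eval_X]
  ring

lemma pre_toPoly (d : ℕ) (t : (Fin (d + 1) → ℤ) × ℕ) :
    pre (toPoly d t) = Pre (pf d t.1 t.2) := by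
  unfold pre Pre
  have : (fun y : ℚ => (toPoly d t).eval y) = pf d t.1 t.2 := by
    funext y
    exact eval_toPoly d t y
  rw [this]

lemma exists_datum {d H : ℕ} {f : ℚ[X]} (hd : 1 ≤ d) (hf : f ∈ polys d H) :
    ∃ t ∈ Dat d H, toPoly d t = f ∧ t.1 (Fin.last d) ≠ 0 := by
  obtain ⟨hdeg, b, hb, hbH, hm⟩ := hf
  choose m hm1 hm2 using hm
  have hb0 : (b : ℚ) ≠ 0 := by exact_mod_cast hb.ne'
  have hf0 : f ≠ 0 := by
    rintro rfl
    simp at hdeg
    omega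
  refine ⟨(fun i => m i, b), ?_, ?_, ?_⟩
  · unfold Dat box
    rw [Finset.mem_product, Fintype.mem_piFinset]
    refine ⟨fun i => ?_, Finset.mem_Icc.2 ⟨hb, hbH⟩⟩
    rw [Finset.mem_Icc]
    exact abs_le.1 (hm1 i)
  · ext i
    rw [coeff_toPoly]
    split_ifs with h
    · simp only
      rw [← hm2, mul_div_cancel_left₀ _ hb0]
    · rw [coeff_eq_zero_of_natDegree_lt]
      omega
  · simp only [Fin.val_last]
    intro h
    have h1 := hm2 d
    rw [h] at h1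
    have h2 : f.coeff d ≠ 0 := by
      rw [← hdeg]
      exact leadingCoeff_ne_zero.2 hf0
    apply h2
    have h3 : (b : ℚ) * f.coeff d = 0 := by
      rw [h1]
      norm_num
    exact (mul_eq_zero.1 h3).resolve_left hb0

lemma par_subset {d H : ℕ} (hd : 2 ≤ d) : Par d H ⊆
    ((toPoly d) '' (E1 d H 1 : Set ((Fin (d + 1) → ℤ) × ℕ))) := by
  rintro f ⟨hf, hne⟩
  obtain ⟨t, ht, rfl, hlast⟩ := exists_datum (by omega) hf
  rw [pre_toPoly] at hne
  exact ⟨t, mem_E1 hd ht hlast hne, rfl⟩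

lemma exc_two {f : ℚ[X]} (hne : (pre f).Nonempty) (h : ¬ Typ f) :
    ∃ x ∈ pre f, ∃ y ∈ pre f, x ≠ y := by
  by_contra hcon
  push Not at hcon
  obtain ⟨x, hx⟩ := hne
  apply h
  have h1 : f.eval x ∈ pre f := by
    refine Set.Finite.subset hx ?_
    rintro _ ⟨k, rfl⟩
    exact ⟨k + 1, Function.iterate_succ_apply _ _ _⟩
  refine ⟨x, hcon _ h1 _ hx, ?_⟩
  ext y
  rw [Set.mem_singleton_iff]
  constructor
  · intro hy
    exact hcon _ hy _ hx
  · rintro rfl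
    exact hx

lemma exc_subset {d H K : ℕ} (hd : 2 ≤ d) : Exc d H ⊆
    ((toPoly d) '' (E1 d H K ∪ E2 d H K : Finset ((Fin (d + 1) → ℤ) × ℕ))) := by
  rintro f ⟨⟨hf, hne⟩, htyp⟩
  have h2 := exc_two hne htyp
  obtain ⟨t, ht, rfl, hlast⟩ := exists_datum (by omega) hf
  rw [pre_toPoly] at h2
  exact ⟨t, mem_E hd ht hlast h2, rfl⟩

theorem par_upper {d H : ℕ} (hd : 5 ≤ d) (hH : 1 ≤ H) : (Par d H).Finite ∧
    ((Par d H).ncard : ℝ) ≤ 30 * 5 ^ d * (H : ℝ) ^ (d + 1) := by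
  classical
  have hsub := par_subset (d := d) (H := H) (by omega)
  have hfin : ((toPoly d) '' (E1 d H 1 : Set ((Fin (d + 1) → ℤ) × ℕ))).Finite :=
    (Finset.finite_toSet _).image _
  refine ⟨hfin.subset hsub, ?_⟩
  have h1 := Set.ncard_le_ncard hsub hfin
  have h2 := Set.ncard_image_le (f := toPoly d) (Finset.finite_toSet (E1 d H 1))
  rw [Set.ncard_coe_finset] at h2
  have h3 := card_E1 (X := H) hd (le_refl 1) hH
  rw [Nat.cast_one, one_pow, div_one] at h3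
  exact (Nat.cast_le.2 (h1.trans h2)).trans h3

/-- the exponent -/
noncomputable def al (d : ℕ) : ℝ := (d : ℝ) + 1 - ((d : ℝ) - 4) / ((d : ℝ) + 2)

theorem exc_card {d H : ℕ} (hd : 5 ≤ d) (hH : 1 ≤ H) : (Exc d H).Finite ∧
    ((Exc d H).ncard : ℝ) ≤ (30 * 5 ^ d + 54 * 3 ^ d * 2 ^ 6) * (H : ℝ) ^ (al d) := by
  classical
  have hH1 : (1 : ℝ) ≤ H := by exact_mod_cast hH
  have hH0 : (0 : ℝ) < H := by linarith
  have hd5 : (5 : ℝ) ≤ d := by exact_mod_cast hd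
  obtain ⟨Z, hZ⟩ : ∃ Z : ℝ, Z = (H : ℝ) ^ (1 / ((d : ℝ) + 2)) := ⟨_, rfl⟩
  have hZ1 : 1 ≤ Z := by
    rw [hZ]
    exact Real.one_le_rpow hH1 (by positivity)
  obtain ⟨K, hK⟩ : ∃ K : ℕ, K = ⌊Z⌋₊ + 1 := ⟨_, rfl⟩
  have hZK : Z ≤ K := by
    rw [hK]
    push_cast
    exact (Nat.lt_floor_add_one Z).le
  have hKZ : (K : ℝ) ≤ 2 * Z := by
    rw [hK]
    push_cast
    have := Nat.floor_le (show 0 ≤ Z by linarith)
    linarith
  have hK1 : 1 ≤ K := by omega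
  have hsub := exc_subset (d := d) (H := H) (K := K) (by omega)
  have hfin : ((toPoly d) '' (E1 d H K ∪ E2 d H K : Finset ((Fin (d + 1) → ℤ) × ℕ))).Finite :=
    (Finset.finite_toSet _).image _
  refine ⟨hfin.subset hsub, ?_⟩
  have h1 := Set.ncard_le_ncard hsub hfin
  have h2 := Set.ncard_image_le (f := toPoly d) (Finset.finite_toSet (E1 d H K ∪ E2 d H K))
  rw [Set.ncard_coe_finset] at h2
  have h3 := Finset.card_union_le (E1 d H K) (E2 d H K)
  have h4 := card_E1 (X := H) hd hK1 hH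
  have h5 := card_E2 (X := H) hd hK1 hH
  have h6 : ((Exc d H).ncard : ℝ) ≤ ((E1 d H K).card : ℝ) + ((E2 d H K).card : ℝ) := by
    exact_mod_cast h1.trans (h2.trans h3)
  have e1 : (H : ℝ) ^ (d + 1) / (K : ℝ) ^ (d - 4) ≤ (H : ℝ) ^ (al d) := by
    have h7 : Z ^ (d - 4) ≤ (K : ℝ) ^ (d - 4) := by gcongr
    have h8 : Z ^ (d - 4) = (H : ℝ) ^ (((d : ℝ) - 4) / ((d : ℝ) + 2)) := by
      rw [hZ, ← Real.rpow_natCast, ← Real.rpow_mul hH0.le, Nat.cast_sub (by omega)]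
      congr 1
      push_cast
      ring
    calc (H : ℝ) ^ (d + 1) / (K : ℝ) ^ (d - 4) ≤ (H : ℝ) ^ (d + 1) / Z ^ (d - 4) := by
          gcongr
      _ = (H : ℝ) ^ (al d) := by
          rw [h8, ← Real.rpow_natCast, ← Real.rpow_sub hH0]
          congr 1
          unfold al
          push_cast
          ring
  have e2 : (K : ℝ) ^ 6 * (H : ℝ) ^ d ≤ 2 ^ 6 * (H : ℝ) ^ (al d) := by
    have h7 : (K : ℝ) ^ 6 ≤ (2 * Z) ^ 6 := by gcongr
    have h8 : Z ^ 6 * (H : ℝ) ^ d = (H : ℝ) ^ (al d) := by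
      rw [hZ, ← Real.rpow_natCast, ← Real.rpow_mul hH0.le, ← Real.rpow_natCast (H : ℝ) d,
        ← Real.rpow_add hH0]
      congr 1
      unfold al
      have : (d : ℝ) + 2 ≠ 0 := by linarith
      field_simp
      push_cast
      ring
    calc (K : ℝ) ^ 6 * (H : ℝ) ^ d ≤ (2 * Z) ^ 6 * (H : ℝ) ^ d := by gcongr
      _ = 2 ^ 6 * (Z ^ 6 * (H : ℝ) ^ d) := by ring
      _ = _ := by rw [h8]
  calc ((Exc d H).ncard : ℝ) ≤ ((E1 d H K).card : ℝ) + ((E2 d H K).card : ℝ) := h6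
    _ ≤ 30 * 5 ^ d * (H : ℝ) ^ (d + 1) / (K : ℝ) ^ (d - 4) +
        54 * 3 ^ d * (K : ℝ) ^ 6 * (H : ℝ) ^ d := add_le_add h4 h5
    _ = 30 * 5 ^ d * ((H : ℝ) ^ (d + 1) / (K : ℝ) ^ (d - 4)) +
        54 * 3 ^ d * ((K : ℝ) ^ 6 * (H : ℝ) ^ d) := by ring
    _ ≤ 30 * 5 ^ d * (H : ℝ) ^ (al d) + 54 * 3 ^ d * (2 ^ 6 * (H : ℝ) ^ (al d)) := by gcongr
    _ = _ := by ring

open Pool.Agent.Q15.UM (cop cop_ge omega_bound)

/-- the datum of a vector and a coprime pair -/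
def fam (k : ℕ) (w : (Fin k → ℤ) × (ℕ × ℕ)) : (Fin (k + 1 + 1) → ℤ) × ℕ :=
  (Fin.cons (α := fun _ => ℤ) 0 (Fin.snoc (α := fun _ => ℤ) w.1 (w.2.2 : ℤ)), w.2.1)

theorem par_lower {d H : ℕ} (hd : 5 ≤ d) (hH : 1 ≤ H) :
    (H : ℝ) ^ (d + 1) ≤ 4 * ((Par d H).ncard : ℝ) := by
  classical
  obtain ⟨k, rfl⟩ : ∃ k, d = k + 1 := ⟨d - 1, by omega⟩
  obtain ⟨hfin, -⟩ := par_upper (d := k + 1) hd hH
  obtain ⟨W, hW⟩ : ∃ W : Finset ((Fin k → ℤ) × (ℕ × ℕ)),
    W = (Fintype.piFinset fun _ : Fin k => Finset.Icc (-(H : ℤ)) H) ×ˢ cop H := ⟨_, rfl⟩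
  have hWm : ∀ w ∈ W, (∀ i, w.1 i ∈ Finset.Icc (-(H : ℤ)) H) ∧ 1 ≤ w.2.1 ∧ w.2.1 ≤ H ∧
      1 ≤ w.2.2 ∧ w.2.2 ≤ H ∧ Nat.Coprime w.2.1 w.2.2 := by
    intro w hw
    rw [hW, Finset.mem_product] at hw
    obtain ⟨h1, h2⟩ := hw
    unfold cop at h2
    rw [Finset.mem_filter, Finset.mem_product, Finset.mem_Icc, Finset.mem_Icc] at h2
    exact ⟨fun i => Fintype.mem_piFinset.1 h1 i, h2.1.1.1, h2.1.1.2, h2.1.2.1, h2.1.2.2, h2.2⟩
  have hlast : ∀ w : (Fin k → ℤ) × (ℕ × ℕ), (fam k w).1 (Fin.last (k + 1)) = w.2.2 := by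
    intro w
    rw [← Fin.succ_last]
    show Fin.cons (α := fun _ => ℤ) 0 (Fin.snoc (α := fun _ => ℤ) w.1 (w.2.2 : ℤ))
      (Fin.last k).succ = _
    rw [Fin.cons_succ, Fin.snoc_last]
  have hmid : ∀ (w : (Fin k → ℤ) × (ℕ × ℕ)) (i : Fin k), (fam k w).1 i.castSucc.succ = w.1 i := by
    intro w i
    show Fin.cons (α := fun _ => ℤ) 0 (Fin.snoc (α := fun _ => ℤ) w.1 (w.2.2 : ℤ))
      i.castSucc.succ = _
    rw [Fin.cons_succ, Fin.snoc_castSucc]
  have hzero : ∀ w : (Fin k → ℤ) × (ℕ × ℕ), (fam k w).1 0 = 0 := by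
    intro w
    rfl
  have hbound : ∀ w ∈ W, ∀ i, |(fam k w).1 i| ≤ (H : ℤ) := by
    intro w hw i
    obtain ⟨h1, h2, h3, h4, h5, h6⟩ := hWm w hw
    refine Fin.cases ?_ (fun j => ?_) i
    · rw [hzero, abs_zero]
      positivity
    · refine Fin.lastCases ?_ (fun l => ?_) j
      · rw [Fin.succ_last, hlast, Nat.abs_cast]
        exact_mod_cast h5
      · rw [hmid]
        have := h1 l
        rw [Finset.mem_Icc] at this
        exact abs_le.2 this
  have hcd : ∀ w : (Fin k → ℤ) × (ℕ × ℕ), (toPoly (k + 1) (fam k w)).coeff (k + 1) =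
      (w.2.2 : ℚ) / w.2.1 := by
    intro w
    rw [coeff_toPoly, dif_pos (by omega)]
    have h1 : (⟨k + 1, by omega⟩ : Fin (k + 1 + 1)) = Fin.last (k + 1) := rfl
    rw [h1, hlast]
    push_cast
    rfl
  have hsub : (toPoly (k + 1) ∘ fam k) '' (W : Set _) ⊆ Par (k + 1) H := by
    rintro _ ⟨w, hw, rfl⟩
    have hw' := Finset.mem_coe.1 hw
    obtain ⟨h1, h2, h3, h4, h5, h6⟩ := hWm w hw'
    have hb0 : (w.2.1 : ℚ) ≠ 0 := by
      have : w.2.1 ≠ 0 := by omega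
      exact_mod_cast this
    have hu0 : (w.2.2 : ℚ) ≠ 0 := by
      have : w.2.2 ≠ 0 := by omega
      exact_mod_cast this
    refine ⟨⟨?_, w.2.1, by omega, h3, ?_⟩, 0, ?_⟩
    · apply natDegree_eq_of_le_of_coeff_ne_zero
      · rw [natDegree_le_iff_coeff_eq_zero]
        intro i hi
        simp only [Function.comp_apply]
        rw [coeff_toPoly, dif_neg (by omega)]
      · simp only [Function.comp_apply]
        rw [hcd]
        exact div_ne_zero hu0 hb0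
    · intro i
      simp only [Function.comp_apply]
      rw [coeff_toPoly]
      split_ifs with h
      · refine ⟨(fam k w).1 ⟨i, h⟩, hbound w hw' _, ?_⟩
        have : (fam k w).2 = w.2.1 := rfl
        rw [this, mul_div_cancel₀ _ hb0]
      · exact ⟨0, by simp, by simp⟩
    · simp only [Function.comp_apply]
      rw [pre_toPoly]
      apply fixed_pre
      unfold pf
      rw [Fin.sum_univ_succ, hzero]
      simp
  have hinj : Set.InjOn (toPoly (k + 1) ∘ fam k) (W : Set _) := by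
    intro w hw w' hw' hww
    obtain ⟨h1, h2, h3, h4, h5, h6⟩ := hWm w (Finset.mem_coe.1 hw)
    obtain ⟨h1', h2', h3', h4', h5', h6'⟩ := hWm w' (Finset.mem_coe.1 hw')
    have hb0 : (0 : ℚ) < w.2.1 := by exact_mod_cast h2
    have hb0' : (0 : ℚ) < w'.2.1 := by exact_mod_cast h2'
    have hc : ∀ i, (toPoly (k + 1) (fam k w)).coeff i = (toPoly (k + 1) (fam k w')).coeff i := by
      intro i
      have : toPoly (k + 1) (fam k w) = toPoly (k + 1) (fam k w') := hww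
      rw [this]
    have h7 := hc (k + 1)
    rw [hcd, hcd, div_eq_div_iff hb0.ne' hb0'.ne'] at h7
    have h8 : w.2.2 * w'.2.1 = w'.2.2 * w.2.1 := by exact_mod_cast h7
    have h9 : w.2.1 = w'.2.1 := by
      apply Nat.dvd_antisymm
      · exact Nat.Coprime.dvd_of_dvd_mul_left h6 (by rw [h8]; exact Dvd.intro_left _ rfl)
      · exact Nat.Coprime.dvd_of_dvd_mul_left h6' (by rw [← h8]; exact Dvd.intro_left _ rfl)
    have h10 : w.2.2 = w'.2.2 := by
      rw [h9] at h8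
      exact Nat.eq_of_mul_eq_mul_right (by omega) h8
    have h11 : w.1 = w'.1 := by
      funext i
      have h12 := hc (i + 1)
      rw [coeff_toPoly, coeff_toPoly, dif_pos (by omega), dif_pos (by omega)] at h12
      have e1 : (⟨(i : ℕ) + 1, by omega⟩ : Fin (k + 1 + 1)) = i.castSucc.succ := by
        apply Fin.ext
        simp
      rw [e1, hmid, hmid] at h12
      have e2 : (fam k w).2 = w.2.1 := rfl
      have e3 : (fam k w').2 = w.2.1 := h9.symm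
      rw [e2, e3, div_left_inj' hb0.ne'] at h12
      exact_mod_cast h12
    exact Prod.ext h11 (Prod.ext h9 h10)
  have h1 := Set.ncard_le_ncard hsub hfin
  rw [hinj.ncard_image, Set.ncard_coe_finset] at h1
  have h2 : W.card = (2 * H + 1) ^ k * (cop H).card := by
    rw [hW, Finset.card_product, Fintype.card_piFinset]
    simp only [Int.card_Icc, Finset.prod_const, Finset.card_univ, Fintype.card_fin]
    have h2 : ((H : ℤ) + 1 - -(H : ℤ)).toNat = 2 * H + 1 := by omega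
    rw [h2]
  have h3 := cop_ge H hH
  have h4 : ((2 * (H : ℝ) + 1) ^ k * ((cop H).card : ℝ)) ≤ ((Par (k + 1) H).ncard : ℝ) := by
    rw [h2] at h1
    have : (((2 * H + 1) ^ k * (cop H).card : ℕ) : ℝ) ≤ ((Par (k + 1) H).ncard : ℝ) :=
      Nat.cast_le.2 h1
    push_cast at this
    exact this
  have h5 : (H : ℝ) ^ k ≤ (2 * (H : ℝ) + 1) ^ k := by
    have : (0 : ℝ) ≤ H := Nat.cast_nonneg _
    apply pow_le_pow_left₀ this
    linarith
  calc (H : ℝ) ^ (k + 1 + 1) = (H : ℝ) ^ k * (H : ℝ) ^ 2 := by ring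
    _ ≤ (2 * (H : ℝ) + 1) ^ k * (4 * (cop H).card) := by gcongr
    _ = 4 * ((2 * (H : ℝ) + 1) ^ k * ((cop H).card : ℝ)) := by ring
    _ ≤ _ := by linarith

end Pool.Agent.Q15.AP
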