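import Pool.Agent.Q15.AP.P4

/-! The moments. -/

set_option autoImplicit false

namespace Pool.Agent.Q15.AP

open NumberField Polynomial
open Pool.Agent.Q15.AU (pl card_pl eq_one_of_notMem)
open Pool.Agent.Results.MP_c076ed_nt.PolynomialsExact (PotGoodAt prePoints)
open Pool.Agent.Q15.UM (omega_bound)

lemma potGood {K : Type} [Field K] [NumberField K] {v : FinitePlace K} {f : K[X]}
    (hc : ∀ j, v (f.coeff j) ≤ 1) (hl : v f.leadingCoeff = 1) : PotGoodAt v f := by
  obtain ⟨w, hwext⟩ := Pool.Agent.H951R3.PB.exists_ext_fin v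
  have hw : ∀ x : K, w (algebraMap K (AlgebraicClosure K) x) = v x := fun x => hwext x
  refine ⟨w, hw, f.map (algebraMap K (AlgebraicClosure K)), 1, 0, one_ne_zero, ?_, ?_, ?_⟩
  · intro j
    rw [coeff_map, hw]
    exact hc j
  · rw [leadingCoeff_map, hw]
    exact hl
  · simp

lemma int_le_one (v : FinitePlace ℚ) (n : ℤ) : v (n : ℚ) ≤ 1 :=
  Pool.Agent.TH737.HEN.finitePlace_intCast_le v n

/-- the number of the preperiodic points of a polynomial of height at most `H` -/
theorem pre_card {d H : ℕ} (hd : 2 ≤ d) {f : ℚ[X]} (hf : f ∈ polys d H) :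
    ∃ m : ℕ, 1 ≤ m ∧ m ≤ H ^ 2 ∧
      (pre f).encard ≤ ((d ^ m.primeFactors.card * max 5 d : ℕ) : ℕ∞) := by
  obtain ⟨hdeg, b, hb, hbH, hm⟩ := hf
  choose m hm1 hm2 using hm
  have hb0 : (b : ℚ) ≠ 0 := by exact_mod_cast hb.ne'
  have hf0 : f ≠ 0 := by
    rintro rfl
    simp at hdeg
    omega
  have hmd : m d ≠ 0 := by
    intro h
    have h1 := hm2 d
    rw [h] at h1
    have h2 : f.coeff d ≠ 0 := by
      rw [← hdeg]
      exact leadingCoeff_ne_zero.2 hf0
    apply h2
    have h3 : (b : ℚ) * f.coeff d = 0 := by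
      rw [h1]
      norm_num
    exact (mul_eq_zero.1 h3).resolve_left hb0
  have hmn : (m d).natAbs ≠ 0 := Int.natAbs_ne_zero.2 hmd
  have hM0 : b * (m d).natAbs ≠ 0 := Nat.mul_ne_zero hb.ne' hmn
  refine ⟨b * (m d).natAbs, Nat.one_le_iff_ne_zero.2 hM0, ?_, ?_⟩
  · rw [sq]
    apply Nat.mul_le_mul hbH
    have := hm1 d
    rw [Int.abs_eq_natAbs] at this
    exact_mod_cast this
  · have h1 := Pool.Agent.Results.MP_c076ed_nt.PolynomialsExact.result.{0}.2.1 d f
      (pl (b * (m d).natAbs)) hd hdeg (fun v hv => ?_)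
    · have h2 : prePoints f = pre f := rfl
      rw [h2] at h1
      refine h1.trans ?_
      have h3 : d ^ (pl (b * (m d).natAbs)).card * max 5 d ≤
          d ^ (b * (m d).natAbs).primeFactors.card * max 5 d :=
        Nat.mul_le_mul_right _ (Nat.pow_le_pow_right (by omega) (card_pl _))
      exact_mod_cast h3
    · have h2 := eq_one_of_notMem hM0 hv
      rw [Nat.cast_mul, map_mul] at h2
      have hb1 : v (b : ℚ) ≤ 1 := by
        have := int_le_one v (b : ℤ)
        exact_mod_cast this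
      have hm1' : v (((m d).natAbs : ℕ) : ℚ) ≤ 1 := by
        have := int_le_one v (((m d).natAbs : ℕ) : ℤ)
        rw [Int.cast_natCast] at this
        exact this
      have h0b : 0 ≤ v (b : ℚ) := apply_nonneg _ _
      have h0m : 0 ≤ v (((m d).natAbs : ℕ) : ℚ) := apply_nonneg _ _
      have hvb : v (b : ℚ) = 1 := by nlinarith
      have hvm : v (((m d).natAbs : ℕ) : ℚ) = 1 := by nlinarith
      have hvm' : v ((m d : ℤ) : ℚ) = 1 := by
        rcases Int.natAbs_eq (m d) with h3 | h3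
        · rw [h3, Int.cast_natCast]
          exact hvm
        · rw [h3, Int.cast_neg, Int.cast_natCast]
          have h4 : v (-(((m d).natAbs : ℕ) : ℚ)) = v (((m d).natAbs : ℕ) : ℚ) := v.val.map_neg _
          rw [h4]
          exact hvm
      have hco : ∀ j, v (f.coeff j) = v ((m j : ℤ) : ℚ) := by
        intro j
        rw [← hm2, map_mul, hvb, one_mul]
      apply potGood
      · intro j
        rw [hco]
        exact int_le_one v _
      · have : f.leadingCoeff = f.coeff d := by rw [← hdeg]; rfl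
        rw [this, hco]
        exact hvm'

theorem pre_finite {d H : ℕ} (hd : 2 ≤ d) {f : ℚ[X]} (hf : f ∈ polys d H) : (pre f).Finite := by
  obtain ⟨m, -, -, h⟩ := pre_card hd hf
  exact Set.finite_of_encard_le_coe h

/-- the moments over the exceptional polynomials -/
theorem moments {d : ℕ} (hd : 5 ≤ d) (p : ℕ) (ε : ℝ) (hε : 0 < ε) : ∃ K : ℝ, ∀ H : ℕ, 1 ≤ H →
    ∑ᶠ f ∈ Exc d H, ((pre f).ncard : ℝ) ^ p ≤ K * (H : ℝ) ^ (al d + ε) := by
  classical
  obtain ⟨C, hC, hω⟩ := omega_bound d (by omega) (ε / (2 * (p + 1))) (by positivity)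
  obtain ⟨L, hL⟩ : ∃ L : ℕ, L = max 5 d := ⟨_, rfl⟩
  obtain ⟨A, hA⟩ : ∃ A : ℝ, A = 30 * 5 ^ d + 54 * 3 ^ d * 2 ^ 6 := ⟨_, rfl⟩
  refine ⟨A * (L * C) ^ p, fun H hH => ?_⟩
  have hH1 : (1 : ℝ) ≤ H := by exact_mod_cast hH
  obtain ⟨hfin, hcard⟩ := exc_card hd hH
  rw [← hA] at hcard
  rw [finsum_mem_eq_finite_toFinset_sum _ hfin]
  have h1 : ∀ f ∈ hfin.toFinset, ((pre f).ncard : ℝ) ^ p ≤ (L * C) ^ p * (H : ℝ) ^ ε := by
    intro f hf
    obtain ⟨⟨hf', -⟩, -⟩ := (Set.Finite.mem_toFinset hfin).1 hf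
    obtain ⟨m, hm1, hm2, hm3⟩ := pre_card (by omega) hf'
    have hn : (pre f).ncard ≤ d ^ m.primeFactors.card * L := by
      rw [← (pre_finite (by omega) hf').cast_ncard_eq] at hm3
      rw [hL]
      exact_mod_cast hm3
    have h3 : ((pre f).ncard : ℝ) ≤ L * C * (H : ℝ) ^ (ε / (p + 1)) := by
      calc ((pre f).ncard : ℝ) ≤ ((d ^ m.primeFactors.card * L : ℕ) : ℝ) := Nat.cast_le.2 hn
        _ = ((d ^ m.primeFactors.card : ℕ) : ℝ) * L := by
            rw [Nat.cast_mul]
        _ ≤ (C * (m : ℝ) ^ (ε / (2 * (p + 1)))) * L := by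
            have := hω _ hm1
            gcongr
        _ ≤ (C * ((H : ℝ) ^ 2) ^ (ε / (2 * (p + 1)))) * L := by
            have : (m : ℝ) ≤ (H : ℝ) ^ 2 := by exact_mod_cast hm2
            gcongr
        _ = _ := by
            rw [← Real.rpow_natCast (H : ℝ) 2, ← Real.rpow_mul (by linarith)]
            have : ((2 : ℕ) : ℝ) * (ε / (2 * (p + 1))) = ε / (p + 1) := by
              push_cast
              field_simp
            rw [this]
            ring
    calc ((pre f).ncard : ℝ) ^ p ≤ (L * C * (H : ℝ) ^ (ε / (p + 1))) ^ p := by gcongr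
      _ = (L * C) ^ p * ((H : ℝ) ^ (ε / (p + 1))) ^ p := mul_pow _ _ _
      _ ≤ (L * C) ^ p * (H : ℝ) ^ ε := by
          apply mul_le_mul_of_nonneg_left _ (by positivity)
          rw [← Real.rpow_natCast, ← Real.rpow_mul (by linarith)]
          apply Real.rpow_le_rpow_of_exponent_le hH1
          rw [div_mul_eq_mul_div, div_le_iff₀ (by positivity)]
          nlinarith
  calc ∑ f ∈ hfin.toFinset, ((pre f).ncard : ℝ) ^ p ≤
      ∑ _f ∈ hfin.toFinset, (L * C) ^ p * (H : ℝ) ^ ε := Finset.sum_le_sum h1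
    _ = ((Exc d H).ncard : ℝ) * ((L * C) ^ p * (H : ℝ) ^ ε) := by
        rw [Finset.sum_const, nsmul_eq_mul, Set.ncard_eq_toFinset_card _ hfin]
    _ ≤ (A * (H : ℝ) ^ (al d)) * ((L * C) ^ p * (H : ℝ) ^ ε) := by
        apply mul_le_mul_of_nonneg_right hcard (by positivity)
    _ = A * (L * C) ^ p * ((H : ℝ) ^ (al d) * (H : ℝ) ^ ε) := by ring
    _ = A * (L * C) ^ p * (H : ℝ) ^ (al d + ε) := by
        rw [← Real.rpow_add (by linarith)]

end Pool.Agent.Q15.AP
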